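import Mathlib

/-!
# Minors and the chain rule
-/

set_option autoImplicit false

open MvPolynomial

namespace Pool.Agent.Q252.QM

/-- linearly independent vectors have a nonzero minor -/
theorem exists_minor {K : Type} [Field K] {c n : ℕ} (v : Fin c → Fin n → K)
    (hv : LinearIndependent K v) :
    ∃ s : Fin c → Fin n, (Matrix.of fun u t => v t (s u)).det ≠ 0 := by
  classical
  let w : Fin n → Fin c → K := fun i t => v t i
  have hsp : Submodule.span K (Set.range w) = ⊤ := by
    by_contra hne
    obtain ⟨f, hf0, hfS⟩ := Submodule.exists_le_ker_of_lt_top _ (lt_top_iff_ne_top.2 hne)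
    have h1 : ∀ i, f (w i) = 0 := fun i => hfS (Submodule.subset_span ⟨i, rfl⟩)
    have h2 : ∀ x : Fin c → K, f x = ∑ t, f (Pi.single t 1) * x t := by
      intro x
      conv_lhs => rw [← Finset.univ_sum_single x]
      rw [map_sum]
      refine Finset.sum_congr rfl fun i _ => ?_
      have h1 : (Pi.single i (x i) : Fin c → K) = x i • Pi.single i 1 := by
        rw [← Pi.single_smul, smul_eq_mul, mul_one]
      rw [h1, map_smul, smul_eq_mul, mul_comm]
    have h3 : ∑ t, f (Pi.single t 1) • v t = 0 := by
      funext i
      rw [Finset.sum_apply]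
      have := h1 i
      rw [h2] at this
      simpa [w] using this
    have h4 := Fintype.linearIndependent_iff.1 hv _ h3
    apply hf0
    ext t
    simpa using h4 t
  obtain ⟨b, hbS, hbsp, hbli⟩ := exists_linearIndependent K (Set.range w)
  rw [hsp] at hbsp
  have hb2 : Submodule.span K (Set.range ((↑) : b → Fin c → K)) = ⊤ := by
    rw [Subtype.range_coe, hbsp]
  let B : Module.Basis b K (Fin c → K) := Module.Basis.mk hbli hb2.ge
  have : Finite b := Module.Finite.finite_basis B
  let _ : Fintype b := Fintype.ofFinite b
  have hc : Fintype.card b = c := by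
    have h1 := Module.finrank_eq_card_basis B
    rw [Module.finrank_fin_fun] at h1
    exact h1.symm
  let φ : Fin c ≃ b := (Fintype.equivFinOfCardEq hc).symm
  choose s hs using fun k => hbS (φ k).2
  refine ⟨s, ?_⟩
  have hli : LinearIndependent K (fun k => (φ k : Fin c → K)) := hbli.comp φ φ.injective
  have h2 : IsUnit (Matrix.of fun k => (φ k : Fin c → K)) :=
    Matrix.linearIndependent_rows_iff_isUnit.1 hli
  have h3 : (Matrix.of fun u t => v t (s u)) = Matrix.of fun k => (φ k : Fin c → K) := by
    ext u t
    exact congrFun (hs u) t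
  rw [h3]
  exact ((Matrix.isUnit_iff_isUnit_det _).1 h2).ne_zero

/-- vectors with a nonzero minor are linearly independent -/
theorem li_of_minor {K : Type} [Field K] {c n : ℕ} (v : Fin c → Fin n → K) (s : Fin c → Fin n)
    (h : (Matrix.of fun u t => v t (s u)).det ≠ 0) : LinearIndependent K v := by
  classical
  rw [Fintype.linearIndependent_iff]
  intro g hg
  have h1 : (Matrix.of fun u t => v t (s u)).mulVec g = 0 := by
    funext u
    have h2 := congrFun hg (s u)
    rw [Finset.sum_apply] at h2
    simp only [Pi.smul_apply, smul_eq_mul, Pi.zero_apply] at h2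
    simp only [Matrix.mulVec, dotProduct, Matrix.of_apply, Pi.zero_apply]
    rw [← h2]
    exact Finset.sum_congr rfl fun t _ => mul_comm _ _
  have h2 := Matrix.eq_zero_of_mulVec_eq_zero h h1
  intro i
  exact congrFun h2 i

/-- products of matrices with independent rows -/
theorem li_mul {K : Type} [Field K] {c m n : ℕ} (J : Fin c → Fin m → K) (d : Fin m → Fin n → K)
    (hJ : LinearIndependent K J) (hd : LinearIndependent K d) :
    LinearIndependent K fun t => ∑ i, J t i • d i := by
  rw [Fintype.linearIndependent_iff] at hJ hd ⊢
  intro g hg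
  have h1 : ∑ i, (∑ t, g t * J t i) • d i = 0 := by
    rw [← hg]
    simp only [Finset.sum_smul, Finset.smul_sum, smul_smul]
    exact Finset.sum_comm
  have h2 := hd _ h1
  apply hJ g
  funext i
  rw [Finset.sum_apply]
  simpa using h2 i

/-- the chain rule -/
theorem pderiv_subst {K : Type} [Field K] {m n : ℕ} (y : Fin m → MvPolynomial (Fin n) K) (u : Fin n)
    (g : MvPolynomial (Fin m) K) :
    pderiv u (aeval y g) = ∑ i, aeval y (pderiv i g) * pderiv u (y i) := by
  classical
  induction g using MvPolynomial.induction_on with
  | C a => simp [aeval_C, MvPolynomial.algebraMap_eq]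
  | add p q hp hq =>
    rw [map_add, map_add, hp, hq, ← Finset.sum_add_distrib]
    refine Finset.sum_congr rfl fun i _ => ?_
    rw [map_add, map_add, add_mul]
  | mul_X p j hp =>
    rw [map_mul, aeval_X, Derivation.leibniz, hp]
    have h1 : ∀ i, aeval y (pderiv i (p * X j)) * pderiv u (y i) =
        y j * (aeval y (pderiv i p) * pderiv u (y i)) +
          (if i = j then aeval y p * pderiv u (y i) else 0) := by
      intro i
      rw [Derivation.leibniz, pderiv_X, smul_eq_mul, smul_eq_mul, map_add, map_mul, map_mul, aeval_X]
      by_cases hij : i = j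
      · subst hij
        rw [if_pos rfl, Pi.single_eq_same, map_one]
        ring
      · rw [if_neg hij, Pi.single_eq_of_ne (Ne.symm hij), map_zero]
        ring
    simp only [h1]
    rw [Finset.sum_add_distrib, ← Finset.mul_sum, Finset.sum_ite_eq' Finset.univ j, smul_eq_mul,
      smul_eq_mul, if_pos (Finset.mem_univ _)]
    ring

theorem eval_subst {K : Type} [Field K] {m n : ℕ} (y : Fin m → MvPolynomial (Fin n) K)
    (g : MvPolynomial (Fin m) K) (p : Fin n → K) :
    eval p (aeval y g) = eval (fun i => eval p (y i)) g := by
  rw [aeval_def, ← coe_eval₂Hom]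
  have : (eval p).comp (eval₂Hom (algebraMap K (MvPolynomial (Fin n) K)) y) =
      eval fun i => eval p (y i) := by
    apply MvPolynomial.ringHom_ext
    · intro r
      simp [MvPolynomial.algebraMap_eq]
    · intro i
      simp
  exact congrArg (fun θ : MvPolynomial (Fin m) K →+* K => θ g) this

end Pool.Agent.Q252.QM
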