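import Pool.Agent.Q252.QM.S3b
import Pool.Agent.Q252.QM.Lin

/-!
# Polynomials of degree at most two in three variables
-/

set_option autoImplicit false

open MvPolynomial

namespace Pool.Agent.Q252.QM

/-- a polynomial of degree at most two -/
noncomputable def qp (c : ℂ) (b : Fin 3 → ℂ) (A : Fin 3 → Fin 3 → ℂ) : MvPolynomial (Fin 3) ℂ :=
  C c + ∑ i, C (b i) * X i + ∑ i, ∑ j, C (A i j) * (X i * X j)

theorem eval_qp (c : ℂ) (b : Fin 3 → ℂ) (A : Fin 3 → Fin 3 → ℂ) (x : Fin 3 → ℂ) :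
    eval x (qp c b A) = c + ∑ i, b i * x i + ∑ i, ∑ j, A i j * (x i * x j) := by
  simp [qp]

theorem pderiv_qp (c : ℂ) (b : Fin 3 → ℂ) (A : Fin 3 → Fin 3 → ℂ) (k : Fin 3) :
    pderiv k (qp c b A) = C (b k) + ∑ j, C (A k j + A j k) * X j := by
  have hX : ∀ i : Fin 3, pderiv k (X i : MvPolynomial (Fin 3) ℂ) = if i = k then 1 else 0 := by
    intro i
    rw [pderiv_X, Pi.single_apply]
  simp only [qp, Derivation.map_add, pderiv_C, map_sum, Derivation.leibniz, smul_eq_mul, mul_zero,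
    add_zero, zero_add, hX, Fin.sum_univ_three, C_add]
  fin_cases k <;> simp <;> ring

theorem eval_pderiv_qp (c : ℂ) (b : Fin 3 → ℂ) (A : Fin 3 → Fin 3 → ℂ) (k : Fin 3)
    (x : Fin 3 → ℂ) :
    eval x (pderiv k (qp c b A)) = b k + ∑ j, (A k j + A j k) * x j := by
  rw [pderiv_qp]
  simp

theorem hc_qp (c : ℂ) (b : Fin 3 → ℂ) (A : Fin 3 → Fin 3 → ℂ) :
    homogeneousComponent 2 (qp c b A) = ∑ i, ∑ j, C (A i j) * (X i * X j) := by
  have h0 : (C c : MvPolynomial (Fin 3) ℂ) ∈ homogeneousSubmodule (Fin 3) ℂ 0 :=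
    (mem_homogeneousSubmodule _ _).2 (isHomogeneous_C _ _)
  have h1 : (∑ i, C (b i) * X i : MvPolynomial (Fin 3) ℂ) ∈ homogeneousSubmodule (Fin 3) ℂ 1 := by
    refine Submodule.sum_mem _ fun i _ => (mem_homogeneousSubmodule _ _).2 ?_
    simpa using (isHomogeneous_C (Fin 3) (b i)).mul (isHomogeneous_X ℂ i)
  have h2 : (∑ i, ∑ j, C (A i j) * (X i * X j) : MvPolynomial (Fin 3) ℂ) ∈
      homogeneousSubmodule (Fin 3) ℂ 2 := by
    refine Submodule.sum_mem _ fun i _ => Submodule.sum_mem _ fun j _ =>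
      (mem_homogeneousSubmodule _ _).2 ?_
    simpa using (isHomogeneous_C (Fin 3) (A i j)).mul
      ((isHomogeneous_X ℂ i).mul (isHomogeneous_X ℂ j))
  rw [qp, map_add, map_add, homogeneousComponent_of_mem h0, homogeneousComponent_of_mem h1,
    homogeneousComponent_of_mem h2]
  simp

theorem eval_hc_qp (c : ℂ) (b : Fin 3 → ℂ) (A : Fin 3 → Fin 3 → ℂ) (x : Fin 3 → ℂ) :
    eval x (homogeneousComponent 2 (qp c b A)) = ∑ i, ∑ j, A i j * (x i * x j) := by
  rw [hc_qp]
  simp

/-- every polynomial of degree at most two has this form -/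
theorem exists_qp (f : MvPolynomial (Fin 3) ℂ) (hf : f.totalDegree ≤ 2) :
    ∃ (c : ℂ) (b : Fin 3 → ℂ) (A : Fin 3 → Fin 3 → ℂ), f = qp c b A := by
  classical
  have key : ∀ s : Finset (Fin 3 →₀ ℕ), (∀ m ∈ s, m 0 + m 1 + m 2 ≤ 2) →
      ∃ (c : ℂ) (b : Fin 3 → ℂ) (A : Fin 3 → Fin 3 → ℂ), ∀ x : Fin 3 → ℂ,
        ∑ m ∈ s, coeff m f * ∏ l, x l ^ m l =
          c + ∑ i, b i * x i + ∑ i, ∑ j, A i j * (x i * x j) := by
    intro s
    induction s using Finset.induction_on with
    | empty =>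
      intro _
      exact ⟨0, fun _ => 0, fun _ _ => 0, fun x => by simp⟩
    | insert m s hm ih =>
      intro h
      obtain ⟨c, b, A, hA⟩ := ih fun m' hm' => h m' (Finset.mem_insert_of_mem hm')
      have h2 := h m (Finset.mem_insert_self _ _)
      rcases (show m 0 + m 1 + m 2 = 0 ∨ m 0 + m 1 + m 2 = 1 ∨ m 0 + m 1 + m 2 = 2 by omega) with
        h3 | h3 | h3
      · refine ⟨c + coeff m f, b, A, fun x => ?_⟩
        rw [Finset.sum_insert hm, hA, Fin.prod_univ_three]
        have e0 : m 0 = 0 := by omega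
        have e1 : m 1 = 0 := by omega
        have e2 : m 2 = 0 := by omega
        rw [e0, e1, e2]
        ring
      · have h4 : ∃ i0 : Fin 3, ∀ x : Fin 3 → ℂ, ∏ l, x l ^ m l = x i0 := by
          simp only [Fin.prod_univ_three]
          rcases (show (m 0 = 1 ∧ m 1 = 0 ∧ m 2 = 0) ∨ (m 0 = 0 ∧ m 1 = 1 ∧ m 2 = 0) ∨
            (m 0 = 0 ∧ m 1 = 0 ∧ m 2 = 1) by omega) with ⟨e0, e1, e2⟩ | ⟨e0, e1, e2⟩ | ⟨e0, e1, e2⟩
          · exact ⟨0, fun x => by rw [e0, e1, e2]; ring⟩
          · exact ⟨1, fun x => by rw [e0, e1, e2]; ring⟩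
          · exact ⟨2, fun x => by rw [e0, e1, e2]; ring⟩
        obtain ⟨i0, hi0⟩ := h4
        refine ⟨c, fun i => b i + if i = i0 then coeff m f else 0, A, fun x => ?_⟩
        rw [Finset.sum_insert hm, hA, hi0]
        simp only [add_mul, Finset.sum_add_distrib, ite_mul, zero_mul]
        rw [Finset.sum_ite_eq' Finset.univ i0, if_pos (Finset.mem_univ _)]
        ring
      · obtain ⟨i0, j0, hij⟩ := mono_two m h3
        refine ⟨c, b, fun i j => A i j + if i = i0 then (if j = j0 then coeff m f else 0) else 0,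
          fun x => ?_⟩
        rw [Finset.sum_insert hm, hA, hij]
        simp only [add_mul, Finset.sum_add_distrib, ite_mul, zero_mul]
        have h5 : ∑ i, ∑ j, (if i = i0 then (if j = j0 then coeff m f * (x i * x j) else 0) else 0) =
            coeff m f * (x i0 * x j0) := by
          rw [Finset.sum_eq_single i0]
          · rw [Finset.sum_eq_single j0]
            · simp
            · intro j _ hj
              simp [hj]
            · simp
          · intro i _ hi
            simp [hi]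
          · simp
        rw [h5]
        ring
  obtain ⟨c, b, A, hA⟩ := key f.support (by
    intro m hm
    have h1 := (le_totalDegree hm).trans hf
    rw [Finsupp.sum_fintype _ _ (by simp)] at h1
    simpa [Fin.sum_univ_three, add_assoc] using h1)
  refine ⟨c, b, A, MvPolynomial.funext fun x => ?_⟩
  rw [eval_eq', hA, eval_qp]

/-- an invertible matrix with a given third column -/
theorem exists_col (e : Fin 3 → ℂ) (he : e ≠ 0) :
    ∃ T : Matrix (Fin 3) (Fin 3) ℂ, T.det ≠ 0 ∧ ∀ i, T i 2 = e i := by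
  have h : e 0 ≠ 0 ∨ e 1 ≠ 0 ∨ e 2 ≠ 0 := by
    by_contra hc
    push Not at hc
    apply he
    funext i
    fin_cases i
    · exact hc.1
    · exact hc.2.1
    · exact hc.2.2
  rcases h with h | h | h
  · refine ⟨!![0, 0, e 0; 1, 0, e 1; 0, 1, e 2], ?_, fun i => by fin_cases i <;> rfl⟩
    rw [Matrix.det_fin_three]
    simpa using h
  · refine ⟨!![1, 0, e 0; 0, 0, e 1; 0, 1, e 2], ?_, fun i => by fin_cases i <;> rfl⟩
    rw [Matrix.det_fin_three]
    simpa using h
  · refine ⟨!![1, 0, e 0; 0, 1, e 1; 0, 0, e 2], ?_, fun i => by fin_cases i <;> rfl⟩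
    rw [Matrix.det_fin_three]
    simpa using h

end Pool.Agent.Q252.QM
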