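import Pool.Agent.Q57.QM.Stm

/-!
# Job QM-S7: systems of quadrics
-/

set_option autoImplicit false

open MvPolynomial Pool.Agent.Q57.QM

namespace Pool.Agent.Q252.QM

theorem Cv.union {Γ : ∀ n r : ℕ, (Fin r → MvPolynomial (Fin n) ℂ) → Prop} {n r : ℕ}
    {f : Fin r → MvPolynomial (Fin n) ℂ} {P Q : (Fin n → ℂ) → Prop} (h1 : Cv Γ f P)
    (h2 : Cv Γ f Q) : Cv Γ f fun p => P p ∨ Q p := by
  classical
  obtain ⟨S, hS, hp⟩ := h1
  obtain ⟨T, hT, hq⟩ := h2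
  refine ⟨S ∪ T, fun A hA => ?_, fun p hP h0 => ?_⟩
  · rcases Finset.mem_union.1 hA with h | h
    · exact hS A h
    · exact hT A h
  · rcases hP with h | h
    · obtain ⟨A, hA, hm⟩ := hp p h h0
      exact ⟨A, Finset.mem_union_left _ hA, hm⟩
    · obtain ⟨A, hA, hm⟩ := hq p h h0
      exact ⟨A, Finset.mem_union_right _ hA, hm⟩

theorem Cv.iUnion {Γ : ∀ n r : ℕ, (Fin r → MvPolynomial (Fin n) ℂ) → Prop} {n r : ℕ}
    {f : Fin r → MvPolynomial (Fin n) ℂ} {J : Type} [Fintype J] {P : J → (Fin n → ℂ) → Prop}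
    (h : ∀ j, Cv Γ f (P j)) : Cv Γ f fun p => ∃ j, P j p := by
  classical
  choose S hS hp using h
  refine ⟨Finset.univ.biUnion S, fun A hA => ?_, fun p hP h0 => ?_⟩
  · obtain ⟨j, -, hj⟩ := Finset.mem_biUnion.1 hA
    exact hS j A hj
  · obtain ⟨j, hj⟩ := hP
    obtain ⟨A, hA, hm⟩ := hp j p hj h0
    exact ⟨A, Finset.mem_biUnion.2 ⟨j, Finset.mem_univ _, hA⟩, hm⟩

theorem Cv.mono {Γ : ∀ n r : ℕ, (Fin r → MvPolynomial (Fin n) ℂ) → Prop} {n r : ℕ}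
    {f : Fin r → MvPolynomial (Fin n) ℂ} {P Q : (Fin n → ℂ) → Prop} (h1 : Cv Γ f P)
    (h : ∀ p, (∀ j, eval p (f j) = 0) → Q p → P p) : Cv Γ f Q := by
  obtain ⟨S, hS, hp⟩ := h1
  exact ⟨S, hS, fun p hP h0 => hp p (h p h0 hP) h0⟩

theorem qm_cvquad (h1 : StCvSmooth) (h2 : StCvVertex) : StCvQuad := by
  classical
  intro Γ hG r f hf
  have hs : ∀ j : Fin r, Cv Γ f fun p => (f j).totalDegree ≤ 2 ∧ ∃ i, eval p (pderiv i (f j)) ≠ 0 := by
    intro j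
    by_cases hj : (f j).totalDegree ≤ 2
    · exact Cv.mono (h1 Γ hG f j hj) fun p _ h => h.2
    · exact ⟨∅, by simp, fun p h => absurd h.1 hj⟩
  have hu := Cv.iUnion hs
  rcases hf.2 with hd | hd
  · refine Cv.mono (Cv.union hu (h2 Γ hG f hf.1 hd)) fun p _ _ => ?_
    by_cases h : ∀ j i, eval p (pderiv i (f j)) = 0
    · exact Or.inr h
    · push Not at h
      obtain ⟨j, i, hji⟩ := h
      exact Or.inl ⟨j, hd j, i, hji⟩
  · refine Cv.mono hu fun p h0 _ => ?_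
    obtain ⟨j, i, h3, h4⟩ := hd p h0
    exact ⟨j, h3, i, h4⟩

end Pool.Agent.Q252.QM
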