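import Pool.Agent.Q57.QM.Stm
import Pool.Agent.Q57.MC.Frac
import Pool.Agent.Q252.QM.Rep
import Pool.Agent.Q252.QM.S7

/-!
# Covers: substitutions and localisation
-/

set_option autoImplicit false

open MvPolynomial Pool.Agent.Q57.QM
open Pool.Agent.Q57.MC (Chart Same frac Same.map)

namespace Pool.Agent.Q252.QM

variable {Γ : ∀ n r : ℕ, (Fin r → MvPolynomial (Fin n) ℂ) → Prop}

/-- substitution in a chart -/
theorem same_pull {m n r c r' : ℕ} (y : Fin m → MvPolynomial (Fin n) ℂ)
    {h : Fin r → MvPolynomial (Fin m) ℂ} {q : Fin r' → MvPolynomial (Fin c) ℂ}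
    {a : Fin c → MvPolynomial (Fin m) ℂ} {w : MvPolynomial (Fin m) ℂ} (hs : Same h q a w) :
    Same (fun j => aeval y (h j)) q (fun t => aeval y (a t)) (aeval y w) := by
  let S := Localization.Away (aeval y w : MvPolynomial (Fin n) ℂ)
  let φ : MvPolynomial (Fin m) ℂ →ₐ[ℂ] S :=
    (IsScalarTower.toAlgHom ℂ (MvPolynomial (Fin n) ℂ) S).comp (aeval y)
  exact Same.map hs φ (IsLocalization.Away.invSelf (aeval y w : MvPolynomial (Fin n) ℂ))
    (IsLocalization.Away.mul_invSelf (S := S) (aeval y w : MvPolynomial (Fin n) ℂ))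

/-- the pull-back of a cover by a polynomial map, at the points at which it is a submersion -/
theorem Cv.pull {m n r : ℕ} (y : Fin m → MvPolynomial (Fin n) ℂ)
    {h : Fin r → MvPolynomial (Fin m) ℂ} {P : (Fin m → ℂ) → Prop} (hc : Cv Γ h P) :
    Cv Γ (fun j => aeval y (h j)) fun p => P (fun i => eval p (y i)) ∧
      LinearIndependent ℂ fun i => (fun u => eval p (pderiv u (y i)) : Fin n → ℂ) := by
  classical
  obtain ⟨S, hS, hp⟩ := hc
  let F : (A : Chart (Fin m)) → (Fin A.c → Fin n) → Chart (Fin n) := fun A s =>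
    ⟨A.c, A.r, fun t => aeval y (A.a t), aeval y A.w, s, A.h⟩
  refine ⟨S.biUnion fun A => Finset.univ.image (F A), fun B hB => ?_, fun p hP h0 => ?_⟩
  · obtain ⟨A, hA, hB⟩ := Finset.mem_biUnion.1 hB
    obtain ⟨s, -, rfl⟩ := Finset.mem_image.1 hB
    exact ⟨same_pull y (hS A hA).1, (hS A hA).2⟩
  · obtain ⟨hP1, hP2⟩ := hP
    obtain ⟨A, hA, hw, ha, hd⟩ := hp (fun i => eval p (y i)) hP1 fun j => by
      rw [← eval_subst]
      exact h0 j
    have h1 := li_of_minor (fun t i => eval (fun i => eval p (y i)) (pderiv i (A.a t))) A.s hd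
    have h2 := li_mul _ _ h1 hP2
    obtain ⟨s, hs⟩ := exists_minor _ h2
    refine ⟨F A s, Finset.mem_biUnion.2 ⟨A, hA, Finset.mem_image_of_mem _ (Finset.mem_univ _)⟩,
      ?_, fun t => ?_, ?_⟩
    · change eval p (aeval y A.w) ≠ 0
      rw [eval_subst]
      exact hw
    · change eval p (aeval y (A.a t)) = 0
      rw [eval_subst]
      exact ha t
    · change (Matrix.of fun u t => eval p (pderiv (s u) (aeval y (A.a t)))).det ≠ 0
      have h3 : (Matrix.of fun u t => eval p (pderiv (s u) (aeval y (A.a t)))) =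
          Matrix.of fun u t => (∑ i, eval (fun i => eval p (y i)) (pderiv i (A.a t)) •
            (fun u => eval p (pderiv u (y i)) : Fin n → ℂ)) (s u) := by
        ext u t
        simp only [Matrix.of_apply, Finset.sum_apply, Pi.smul_apply, smul_eq_mul]
        rw [pderiv_subst, map_sum]
        refine Finset.sum_congr rfl fun i _ => ?_
        rw [map_mul, eval_subst]
      rw [h3]
      exact hs

/-- localisation -/
theorem Cv.loc {n r : ℕ} {f f' : Fin r → MvPolynomial (Fin n) ℂ} (u : MvPolynomial (Fin n) ℂ)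
    (hu : ∀ (S : Type) [CommRing S] [Algebra ℂ S] (φ : MvPolynomial (Fin n) ℂ →ₐ[ℂ] S),
      IsUnit (φ u) → Ideal.span (Set.range fun j => φ (f j)) =
        Ideal.span (Set.range fun j => φ (f' j)))
    {P : (Fin n → ℂ) → Prop} (hc : Cv Γ f' P)
    (hz : ∀ p, (∀ j, eval p (f j) = 0) → eval p u ≠ 0 → ∀ j, eval p (f' j) = 0) :
    Cv Γ f fun p => P p ∧ eval p u ≠ 0 := by
  classical
  obtain ⟨S, hS, hp⟩ := hc
  let F : Chart (Fin n) → Chart (Fin n) := fun A =>
    ⟨A.c, A.r, fun t => A.a t * u, A.w * u, A.s, A.h⟩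
  refine ⟨S.image F, fun B hB => ?_, fun p hP h0 => ?_⟩
  · obtain ⟨A, hA, rfl⟩ := Finset.mem_image.1 hB
    refine ⟨?_, (hS A hA).2⟩
    have hs : Same f' A.h A.a A.w := (hS A hA).1
    let R := Localization.Away (A.w * u)
    let φ : MvPolynomial (Fin n) ℂ →ₐ[ℂ] R := IsScalarTower.toAlgHom ℂ (MvPolynomial (Fin n) ℂ) R
    have hm : φ (A.w * u) * IsLocalization.Away.invSelf (A.w * u) = 1 :=
      IsLocalization.Away.mul_invSelf (S := R) (A.w * u)
    have hv : φ A.w * (φ u * IsLocalization.Away.invSelf (A.w * u)) = 1 := by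
      rw [← mul_assoc, ← map_mul]
      exact hm
    have hun : IsUnit (φ u) := by
      refine IsUnit.of_mul_eq_one (φ A.w * IsLocalization.Away.invSelf (A.w * u)) ?_
      rw [← hv]
      ring
    have h1 := Same.map hs φ _ hv
    change Ideal.span (Set.range fun j => φ (f j)) = _
    rw [hu R φ hun, h1]
    change _ = Ideal.span (Set.range fun k => aeval (fun t => φ (A.a t * u) *
      IsLocalization.Away.invSelf (A.w * u)) (A.h k))
    simp only [map_mul, mul_assoc]
  · obtain ⟨hP1, hP2⟩ := hP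
    obtain ⟨A, hA, hw, ha, hd⟩ := hp p hP1 (hz p h0 hP2)
    refine ⟨F A, Finset.mem_image_of_mem _ hA, ?_, fun t => ?_, ?_⟩
    · change eval p (A.w * u) ≠ 0
      rw [map_mul]
      exact mul_ne_zero hw hP2
    · change eval p (A.a t * u) = 0
      rw [map_mul, ha t, zero_mul]
    · change (Matrix.of fun x t => eval p (pderiv (A.s x) (A.a t * u))).det ≠ 0
      have h3 : (Matrix.of fun x t => eval p (pderiv (A.s x) (A.a t * u))) =
          eval p u • Matrix.of fun x t => eval p (pderiv (A.s x) (A.a t)) := by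
        ext x t
        simp only [Matrix.of_apply, Matrix.smul_apply, smul_eq_mul, Derivation.leibniz, map_add,
          map_mul]
        rw [ha t]
        ring
      rw [h3, Matrix.det_smul]
      exact mul_ne_zero (pow_ne_zero _ hP2) hd

/-- the linear substitution `X i ↦ ∑ j, T i j X j` -/
noncomputable def ls {n : ℕ} (T : Matrix (Fin n) (Fin n) ℂ) (i : Fin n) : MvPolynomial (Fin n) ℂ :=
  ∑ j, C (T i j) * X j

theorem eval_ls {n : ℕ} (T : Matrix (Fin n) (Fin n) ℂ) (i : Fin n) (x : Fin n → ℂ) :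
    eval x (ls T i) = (T.mulVec x) i := by
  simp [ls, Matrix.mulVec, dotProduct]

theorem pderiv_ls {n : ℕ} (T : Matrix (Fin n) (Fin n) ℂ) (i u : Fin n) :
    pderiv u (ls T i) = C (T i u) := by
  classical
  simp only [ls, map_sum, Derivation.leibniz, pderiv_C, smul_eq_mul, mul_zero, add_zero, pderiv_X]
  rw [Finset.sum_eq_single u]
  · rw [Pi.single_eq_same, mul_one]
  · intro j _ hj
    rw [Pi.single_eq_of_ne hj, mul_zero]
  · intro h
    exact absurd (Finset.mem_univ _) h

/-- a linear change of coordinates -/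
theorem Cv.lin {n r : ℕ} {f : Fin r → MvPolynomial (Fin n) ℂ} (T : Matrix (Fin n) (Fin n) ℂ)
    (hT : T.det ≠ 0) {P : (Fin n → ℂ) → Prop} (hc : Cv Γ (fun j => aeval (ls T) (f j)) P) :
    Cv Γ f fun p => P (T⁻¹.mulVec p) := by
  have hdu : IsUnit T.det := isUnit_iff_ne_zero.2 hT
  have h1 := Cv.pull (ls T⁻¹) hc
  have h2 : (fun j => aeval (ls T⁻¹) (aeval (ls T) (f j))) = f := by
    funext j
    apply MvPolynomial.funext
    intro x
    rw [eval_subst, eval_subst]
    congr 2
    funext i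
    simp only [eval_ls]
    change (T.mulVec (T⁻¹.mulVec x)) i = x i
    rw [Matrix.mulVec_mulVec, Matrix.mul_nonsing_inv _ hdu, Matrix.one_mulVec]
  rw [h2] at h1
  refine Cv.mono h1 fun p _ hp => ⟨?_, ?_⟩
  · have h3 : (fun i => eval p (ls T⁻¹ i)) = T⁻¹.mulVec p := funext fun i => eval_ls _ _ _
    rw [h3]
    exact hp
  · have h3 : (fun i => (fun u => eval p (pderiv u (ls T⁻¹ i)) : Fin n → ℂ)) = fun i => T⁻¹ i := by
      funext i u
      rw [pderiv_ls, eval_C]
    rw [h3]
    have h4 : IsUnit T⁻¹ := (Matrix.isUnit_nonsing_inv_iff).2 ((Matrix.isUnit_iff_isUnit_det _).2 hdu)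
    exact Matrix.linearIndependent_rows_iff_isUnit.2 h4

end Pool.Agent.Q252.QM
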