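import Pool.Agent.Q252.QM.Pull

/-!
# Job QM-S2: the derivative in an isotropic direction
-/

set_option autoImplicit false

open MvPolynomial Pool.Agent.Q57.QM
open Pool.Agent.Q57.MC (Chart Same frac Same.map)

namespace Pool.Agent.Q252.QM

/-- the substitution `(x0, x1) ↦ T (x0, x1, 0)` -/
noncomputable def l2 (T : Matrix (Fin 3) (Fin 3) ℂ) (i : Fin 3) : MvPolynomial (Fin 2) ℂ :=
  C (T i 0) * X 0 + C (T i 1) * X 1

theorem qm_cviso (h1 : StCvLin) : StCvIso := by
  classical
  intro Γ hG r f i0 e hdeg he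
  by_cases he0 : e = 0
  · refine ⟨∅, by simp, fun p h => ?_⟩
    exfalso
    apply h
    simp [he0]
  obtain ⟨T, hT, hTe⟩ := exists_col e he0
  have hdu : IsUnit T.det := isUnit_iff_ne_zero.2 hT
  obtain ⟨c, b, A, hf⟩ := exists_qp (f i0) hdeg
  have hq : ∑ i, ∑ j, A i j * (e i * e j) = 0 := by
    rw [← eval_hc_qp c b A, ← hf]
    exact he
  let L : MvPolynomial (Fin 2) ℂ := aeval (l2 T) (∑ k, C (e k) * pderiv k (f i0))
  let N : MvPolynomial (Fin 2) ℂ := aeval (l2 T) (f i0)
  have hy : ∀ (x : Fin 3 → ℂ), (fun i => eval (x ∘ Fin.castSucc) (l2 T i)) =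
      fun i => (T.mulVec x) i - x 2 * e i := by
    intro x
    funext i
    simp only [l2, map_add, map_mul, eval_C, eval_X, Function.comp_apply, Matrix.mulVec, dotProduct,
      Fin.sum_univ_three, hTe]
    have e0 : (Fin.castSucc (0 : Fin 2) : Fin 3) = 0 := rfl
    have e1 : (Fin.castSucc (1 : Fin 2) : Fin 3) = 1 := rfl
    rw [e0, e1]
    ring
  have hL : ∀ x : Fin 3 → ℂ, eval x (rename Fin.castSucc L) =
      ∑ k, e k * eval (T.mulVec x) (pderiv k (f i0)) := by
    intro x
    rw [eval_rename, eval_subst, hy, hf]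
    simp only [map_sum, map_mul, eval_C, eval_pderiv_qp]
    simp only [Fin.sum_univ_three] at hq ⊢
    linear_combination (-2 * x 2) * hq
  have hg : aeval (ls T) (f i0) = X 2 * rename Fin.castSucc L + rename Fin.castSucc N := by
    apply MvPolynomial.funext
    intro x
    rw [map_add, map_mul, eval_X, hL, eval_rename, eval_subst, eval_subst, hy]
    have h3 : (fun i => eval x (ls T i)) = T.mulVec x := funext fun i => eval_ls _ _ _
    rw [h3, hf]
    simp only [eval_qp, eval_pderiv_qp]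
    simp only [Fin.sum_univ_three] at hq ⊢
    linear_combination (-(x 2) ^ 2) * hq
  have h2 := h1 Γ hG (fun j => aeval (ls T) (f j)) i0 L N hg
  refine Cv.mono (Cv.lin T hT h2) fun p _ hp => ?_
  rw [hL, Matrix.mulVec_mulVec, Matrix.mul_nonsing_inv _ hdu, Matrix.one_mulVec]
  exact hp

end Pool.Agent.Q252.QM
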