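import Mathlib

/-!
# Job QM-S3: isotropic vectors of ternary quadratic forms over `ℂ` (the statement in plain terms)
-/

set_option autoImplicit false

open MvPolynomial

namespace Pool.Agent.Q252.QM

/-- a monomial of degree two is a product of two coordinates -/
theorem mono_two (m : Fin 3 →₀ ℕ) (hm : m 0 + m 1 + m 2 = 2) :
    ∃ i j : Fin 3, ∀ x : Fin 3 → ℂ, ∏ l, x l ^ m l = x i * x j := by
  have h0 : m 0 ≤ 2 := by omega
  have h1 : m 1 ≤ 2 := by omega
  simp only [Fin.prod_univ_three]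
  obtain ⟨a, ha⟩ : ∃ a, m 0 = a := ⟨_, rfl⟩
  obtain ⟨b, hb⟩ : ∃ b, m 1 = b := ⟨_, rfl⟩
  obtain ⟨c, hc⟩ : ∃ c, m 2 = c := ⟨_, rfl⟩
  rw [ha, hb, hc] at hm ⊢
  have h : (a = 2 ∧ b = 0 ∧ c = 0) ∨ (a = 0 ∧ b = 2 ∧ c = 0) ∨ (a = 0 ∧ b = 0 ∧ c = 2) ∨
    (a = 1 ∧ b = 1 ∧ c = 0) ∨ (a = 1 ∧ b = 0 ∧ c = 1) ∨ (a = 0 ∧ b = 1 ∧ c = 1) := by omega
  rcases h with ⟨rfl, rfl, rfl⟩ | ⟨rfl, rfl, rfl⟩ | ⟨rfl, rfl, rfl⟩ | ⟨rfl, rfl, rfl⟩ |
    ⟨rfl, rfl, rfl⟩ | ⟨rfl, rfl, rfl⟩
  · exact ⟨0, 0, fun x => by ring⟩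
  · exact ⟨1, 1, fun x => by ring⟩
  · exact ⟨2, 2, fun x => by ring⟩
  · exact ⟨0, 1, fun x => by ring⟩
  · exact ⟨0, 2, fun x => by ring⟩
  · exact ⟨1, 2, fun x => by ring⟩

/-- the matrix of a quadratic form -/
theorem quad_mat (q : MvPolynomial (Fin 3) ℂ) (hq : q.IsHomogeneous 2) :
    ∃ A : Fin 3 → Fin 3 → ℂ, ∀ x : Fin 3 → ℂ, eval x q = ∑ i, ∑ j, A i j * (x i * x j) := by
  classical
  have key : ∀ s : Finset (Fin 3 →₀ ℕ), (∀ m ∈ s, m 0 + m 1 + m 2 = 2) →
      ∃ A : Fin 3 → Fin 3 → ℂ, ∀ x : Fin 3 → ℂ,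
        ∑ m ∈ s, coeff m q * ∏ l, x l ^ m l = ∑ i, ∑ j, A i j * (x i * x j) := by
    intro s
    induction s using Finset.induction_on with
    | empty =>
      intro _
      exact ⟨fun _ _ => 0, fun x => by simp⟩
    | insert m s hm ih =>
      intro h
      obtain ⟨A, hA⟩ := ih fun m' hm' => h m' (Finset.mem_insert_of_mem hm')
      obtain ⟨i0, j0, hij⟩ := mono_two m (h m (Finset.mem_insert_self _ _))
      refine ⟨fun i j => A i j + if i = i0 then (if j = j0 then coeff m q else 0) else 0,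
        fun x => ?_⟩
      rw [Finset.sum_insert hm, hA, hij]
      simp only [add_mul, Finset.sum_add_distrib, ite_mul, zero_mul]
      rw [add_comm]
      congr 1
      rw [Finset.sum_eq_single i0]
      · rw [Finset.sum_eq_single j0]
        · simp
        · intro j _ hj
          simp [hj]
        · simp
      · intro i _ hi
        simp [hi]
      · simp
  obtain ⟨A, hA⟩ := key q.support (by
    intro m hm
    have h1 := hq (mem_support_iff.1 hm)
    rw [Finsupp.weight_apply, Finsupp.sum_fintype _ _ (by simp)] at h1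
    simpa [Fin.sum_univ_three, add_assoc] using h1)
  refine ⟨A, fun x => ?_⟩
  rw [eval_eq', hA]

theorem iso_vec (q : MvPolynomial (Fin 3) ℂ) (hq : q.IsHomogeneous 2) :
    (∃ T : Matrix (Fin 3) (Fin 3) ℂ, T.det ≠ 0 ∧ ∀ k, eval (T k) q = 0) ∨
    ∃ l : Fin 3 → ℂ, l ≠ 0 ∧ q = (∑ i, C (l i) * X i) ^ 2 := by
  classical
  obtain ⟨A, hA⟩ := quad_mat q hq
  set S : Set (Fin 3 → ℂ) := {v | eval v q = 0} with hS
  by_cases hsp : Submodule.span ℂ S = ⊤
  · left
    obtain ⟨b, hbS, hbsp, hbli⟩ := exists_linearIndependent ℂ S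
    rw [hsp] at hbsp
    have hb2 : Submodule.span ℂ (Set.range ((↑) : b → Fin 3 → ℂ)) = ⊤ := by
      rw [Subtype.range_coe, hbsp]
    let B : Module.Basis b ℂ (Fin 3 → ℂ) := Module.Basis.mk hbli hb2.ge
    have : Finite b := Module.Finite.finite_basis B
    let _ : Fintype b := Fintype.ofFinite b
    have hc : Fintype.card b = 3 := by
      have h1 := Module.finrank_eq_card_basis B
      rw [Module.finrank_fin_fun] at h1
      exact h1.symm
    let φ : Fin 3 ≃ b := (Fintype.equivFinOfCardEq hc).symm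
    let B' := B.reindex φ.symm
    refine ⟨fun k => (φ k : Fin 3 → ℂ), ?_, fun k => hbS (φ k).2⟩
    have hli : LinearIndependent ℂ (fun k => (φ k : Fin 3 → ℂ)) :=
      hbli.comp φ φ.injective
    have h2 : IsUnit (Matrix.of fun k => (φ k : Fin 3 → ℂ)) :=
      Matrix.linearIndependent_rows_iff_isUnit.1 hli
    exact (Matrix.isUnit_iff_isUnit_det _).1 h2 |>.ne_zero
  · right
    obtain ⟨f, hf0, hfS⟩ := Submodule.exists_le_ker_of_lt_top _ (lt_top_iff_ne_top.2 hsp)
    have hfS' : ∀ v, eval v q = 0 → f v = 0 := fun v hv =>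
      hfS (Submodule.subset_span hv)
    obtain ⟨p0, hp0⟩ : ∃ p, f p ≠ 0 := by
      by_contra h
      push Not at h
      exact hf0 (LinearMap.ext h)
    -- a point with f p = 1
    obtain ⟨p, hfp⟩ : ∃ p : Fin 3 → ℂ, f p = 1 :=
      ⟨(f p0)⁻¹ • p0, by rw [map_smul, smul_eq_mul, inv_mul_cancel₀ hp0]⟩
    -- the restriction to lines
    have hline : ∀ (x u : Fin 3 → ℂ), ∃ B : ℂ, ∀ t : ℂ,
        eval (x + t • u) q = eval x q + t * B + t ^ 2 * eval u q := by
      intro x u
      refine ⟨∑ i, ∑ j, A i j * (x i * u j + u i * x j), fun t => ?_⟩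
      rw [hA, hA, hA, Finset.mul_sum, Finset.mul_sum, ← Finset.sum_add_distrib,
        ← Finset.sum_add_distrib]
      refine Finset.sum_congr rfl fun i _ => ?_
      rw [Finset.mul_sum, Finset.mul_sum, ← Finset.sum_add_distrib, ← Finset.sum_add_distrib]
      refine Finset.sum_congr rfl fun j _ => ?_
      simp only [Pi.add_apply, Pi.smul_apply, smul_eq_mul]
      ring
    have hker : ∀ u : Fin 3 → ℂ, f u = 0 → ∀ t : ℂ, eval (p + t • u) q = eval p q := by
      intro u hu t
      obtain ⟨B, hB⟩ := hline p u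
      have hne : ∀ t : ℂ, eval p q + t * B + t ^ 2 * eval u q ≠ 0 := by
        intro t h0
        rw [← hB] at h0
        have := hfS' _ h0
        rw [map_add, map_smul, hu, smul_zero, add_zero, hfp] at this
        exact one_ne_zero this
      have hu0 : eval u q = 0 := by
        by_contra hc
        obtain ⟨z, hz⟩ : ∃ z : ℂ, z ^ 2 = B ^ 2 - 4 * eval u q * eval p q :=
          IsAlgClosed.exists_pow_nat_eq _ (by norm_num)
        apply hne ((-B + z) / (2 * eval u q))
        field_simp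
        linear_combination hz
      have hB0 : B = 0 := by
        by_contra hc
        apply hne (-(eval p q) / B)
        rw [hu0, mul_zero, add_zero, div_mul_cancel₀ _ hc, add_neg_cancel]
      rw [hB, hu0, hB0]
      ring
    obtain ⟨z, hz⟩ : ∃ z : ℂ, z ^ 2 = eval p q := IsAlgClosed.exists_pow_nat_eq _ (by norm_num)
    have hqp : eval p q ≠ 0 := fun h => by
      have := hfS' _ h
      rw [hfp] at this
      exact one_ne_zero this
    have hz0 : z ≠ 0 := by
      rintro rfl
      apply hqp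
      rw [← hz]
      norm_num
    have hsc : ∀ (c : ℂ) (x : Fin 3 → ℂ), eval (c • x) q = c ^ 2 * eval x q := by
      intro c x
      rw [hA, hA, Finset.mul_sum]
      refine Finset.sum_congr rfl fun i _ => ?_
      rw [Finset.mul_sum]
      refine Finset.sum_congr rfl fun j _ => ?_
      simp only [Pi.smul_apply, smul_eq_mul]
      ring
    have hfin : ∀ x : Fin 3 → ℂ, eval x q = (z * f x) ^ 2 := by
      intro x
      by_cases hx : f x = 0
      · -- use `p + t x` for all `t`
        obtain ⟨B, hB⟩ := hline p x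
        have h1 := hB 1
        have h2 := hB (-1)
        rw [hker x hx] at h1 h2
        have h3 : 2 * eval x q = 0 := by linear_combination -h1 - h2
        rw [hx, mul_zero]
        have h4 := (mul_eq_zero.1 h3).resolve_left two_ne_zero
        rw [h4]
        norm_num
      · have h1 := hker ((f x)⁻¹ • x - p) (by
          rw [map_sub, map_smul, smul_eq_mul, inv_mul_cancel₀ hx, hfp, sub_self]) 1
        have h2 : p + (1 : ℂ) • ((f x)⁻¹ • x - p) = (f x)⁻¹ • x := by
          rw [one_smul]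
          abel
        rw [h2, hsc] at h1
        rw [mul_pow, hz, ← h1]
        field_simp
    have hfl : ∀ x : Fin 3 → ℂ, f x = ∑ i, f (Pi.single i 1) * x i := by
      intro x
      conv_lhs => rw [← Finset.univ_sum_single x]
      rw [map_sum]
      refine Finset.sum_congr rfl fun i _ => ?_
      have h1 : (Pi.single i (x i) : Fin 3 → ℂ) = x i • Pi.single i 1 := by
        rw [← Pi.single_smul, smul_eq_mul, mul_one]
      rw [h1, map_smul, smul_eq_mul, mul_comm]
    refine ⟨fun i => z * f (Pi.single i 1), ?_, ?_⟩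
    · intro h0
      apply hf0
      ext i
      have h1 := congrFun h0 i
      simp only [Pi.zero_apply, mul_eq_zero] at h1
      simpa using h1.resolve_left hz0
    · apply MvPolynomial.funext
      intro x
      rw [hfin x, map_pow, map_sum, hfl, Finset.mul_sum]
      congr 1
      refine Finset.sum_congr rfl fun i _ => ?_
      simp only [map_mul, eval_C, eval_X]
      ring

end Pool.Agent.Q252.QM
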