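import Pool.Agent.Q57.QM.Stm
import Pool.Agent.Q252.QM.S3b

/-!
# Job QM-S3: isotropic vectors of ternary quadratic forms over `ℂ`
-/

set_option autoImplicit false

namespace Pool.Agent.Q252.QM

theorem qm_isovec : Pool.Agent.Q57.QM.StIsoVec := fun q hq => iso_vec q hq

end Pool.Agent.Q252.QM
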