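import Pool.Agent.Q252.QM.Pull

/-!
# Job QM-S4: smooth points of a surface of degree two
-/

set_option autoImplicit false

open MvPolynomial Pool.Agent.Q57.QM
open Pool.Agent.Q57.MC (Chart Same frac Same.map)

namespace Pool.Agent.Q252.QM

/-- the linear form with the coefficients `l` -/
noncomputable def lf (l : Fin 3 → ℂ) : MvPolynomial (Fin 3) ℂ := ∑ i, C (l i) * X i

theorem eval_lf (l x : Fin 3 → ℂ) : eval x (lf l) = ∑ i, l i * x i := by simp [lf]

theorem lf_sub (l : Fin 3 → ℂ) (α : ℂ) : lf l - C α = qp (-α) l fun _ _ => 0 := by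
  apply MvPolynomial.funext
  intro x
  rw [map_sub, eval_lf, eval_C, eval_qp]
  simp
  ring

theorem deg_lf (l : Fin 3 → ℂ) (α : ℂ) : (lf l - C α).totalDegree ≤ 2 := by
  refine (totalDegree_sub _ _).trans ?_
  rw [totalDegree_C]
  refine max_le ?_ (by norm_num)
  refine (totalDegree_finsetSum _ _).trans ?_
  refine Finset.sup_le fun i _ => ?_
  refine (totalDegree_mul _ _).trans ?_
  rw [totalDegree_C, totalDegree_X]
  norm_num

/-- one of the two planes -/
theorem plane_cv {Γ : ∀ n r : ℕ, (Fin r → MvPolynomial (Fin n) ℂ) → Prop} (hG : GG Γ)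
    (h1 : StCvIso) {r : ℕ} (f : Fin r → MvPolynomial (Fin 3) ℂ) (i0 : Fin r) (l : Fin 3 → ℂ)
    (hl : l ≠ 0) (α β : ℂ) (hf : f i0 = (lf l - C α) * (lf l - C β)) :
    Cv Γ f fun p => eval p (lf l - C β) ≠ 0 := by
  classical
  obtain ⟨i, hi⟩ : ∃ i, l i ≠ 0 := by
    by_contra h
    push Not at h
    exact hl (funext h)
  set f' : Fin r → MvPolynomial (Fin 3) ℂ := Function.update f i0 (lf l - C α) with hf'
  have h2 : Cv Γ f' fun p => ∑ j, (Pi.single i 1 : Fin 3 → ℂ) j * eval p (pderiv j (f' i0)) ≠ 0 := by
    refine h1 Γ hG f' i0 (Pi.single i 1) ?_ ?_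
    · rw [hf', Function.update_self]
      exact deg_lf l α
    · rw [hf', Function.update_self, lf_sub, eval_hc_qp]
      simp
  have h3 : Cv Γ f' fun _ => True := by
    refine Cv.mono h2 fun p _ _ => ?_
    rw [hf', Function.update_self, lf_sub]
    simp only [eval_pderiv_qp]
    rw [Finset.sum_eq_single i]
    · simpa using hi
    · intro j _ hj
      rw [Pi.single_eq_of_ne hj, zero_mul]
    · intro h
      exact absurd (Finset.mem_univ _) h
  have h4 := Cv.loc (f := f) (f' := f') (lf l - C β) (fun S _ _ φ hu => ?_) h3 (fun p hp hu j => ?_)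
  · exact Cv.mono h4 fun p _ hp => ⟨trivial, hp⟩
  · obtain ⟨v, hv⟩ := hu
    apply le_antisymm
    · rw [Ideal.span_le]
      rintro _ ⟨j, rfl⟩
      by_cases hj : j = i0
      · subst hj
        have h5 : φ (f j) = φ (lf l - C β) * φ (f' j) := by
          rw [hf', Function.update_self, hf, map_mul, mul_comm]
        change φ (f j) ∈ _
        rw [h5]
        exact Ideal.mul_mem_left _ _ (Ideal.subset_span ⟨j, rfl⟩)
      · refine Ideal.subset_span ⟨j, ?_⟩
        change φ (f' j) = φ (f j)
        rw [hf', Function.update_of_ne hj]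
    · rw [Ideal.span_le]
      rintro _ ⟨j, rfl⟩
      by_cases hj : j = i0
      · subst hj
        have h5 : φ (f' j) = (↑v⁻¹ : S) * φ (f j) := by
          rw [hf', Function.update_self, hf, map_mul, ← hv, mul_comm (φ (lf l - C α)), ← mul_assoc,
            Units.inv_mul, one_mul]
        change φ (f' j) ∈ _
        rw [h5]
        exact Ideal.mul_mem_left _ _ (Ideal.subset_span ⟨j, rfl⟩)
      · refine Ideal.subset_span ⟨j, ?_⟩
        change φ (f j) = φ (f' j)
        rw [hf', Function.update_of_ne hj]
  · by_cases hj : j = i0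
    · subst hj
      have h5 := hp j
      rw [hf, map_mul] at h5
      rw [hf', Function.update_self]
      exact (mul_eq_zero.1 h5).resolve_right hu
    · rw [hf', Function.update_of_ne hj]
      exact hp j

theorem qm_cvsmooth (h1 : StCvIso) (h2 : StIsoVec) : StCvSmooth := by
  classical
  intro Γ hG r f i0 hdeg
  obtain ⟨c, b, A, hf⟩ := exists_qp (f i0) hdeg
  rcases h2 (homogeneousComponent 2 (f i0)) (homogeneousComponent_isHomogeneous _ _) with
    ⟨T, hT, hTk⟩ | ⟨l, hl, hq⟩
  · have h3 := Cv.iUnion (J := Fin 3) fun k => h1 Γ hG f i0 (T k) hdeg (hTk k)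
    refine Cv.mono h3 fun p _ hp => ?_
    by_contra hc
    push Not at hc
    have h4 : T.mulVec (fun i => eval p (pderiv i (f i0))) = 0 := funext fun k => hc k
    have h5 := Matrix.eq_zero_of_mulVec_eq_zero hT h4
    obtain ⟨i, hi⟩ := hp
    exact hi (congrFun h5 i)
  · -- the gradient
    have hF : f i0 = C c + lf b + (lf l) ^ 2 := by
      have h3 : homogeneousComponent 2 (f i0) = ∑ i, ∑ j, C (A i j) * (X i * X j) := by
        rw [hf, hc_qp]
      rw [h3] at hq
      rw [hf, qp, hq]
      rfl
    have hgr : ∀ p k, eval p (pderiv k (f i0)) = b k + 2 * (∑ i, l i * p i) * l k := by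
      intro p k
      have hX : ∀ i : Fin 3, pderiv k (X i : MvPolynomial (Fin 3) ℂ) = if i = k then 1 else 0 := by
        intro i
        rw [pderiv_X, Pi.single_apply]
      have hlk : ∀ l : Fin 3 → ℂ, pderiv k (lf l) = C (l k) := by
        intro l
        simp only [lf, map_sum, Derivation.leibniz, pderiv_C, smul_eq_mul, mul_zero, add_zero, hX,
          mul_ite, mul_one]
        rw [Finset.sum_ite_eq' Finset.univ k, if_pos (Finset.mem_univ _)]
      have hp : pderiv k (f i0) = C (b k) + (lf l * C (l k) + lf l * C (l k)) := by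
        rw [hF, pow_two, Derivation.map_add, Derivation.map_add, pderiv_C, hlk, Derivation.leibniz,
          hlk, zero_add]
        rfl
      rw [hp]
      simp only [map_add, map_mul, eval_C, eval_lf]
      ring
    have hev : ∀ x, eval x (f i0) = c + ∑ i, b i * x i + (∑ i, l i * x i) ^ 2 := by
      intro x
      rw [hF, map_add, map_add, map_pow, eval_C, eval_lf, eval_lf]
    by_cases hcase : ∃ e : Fin 3 → ℂ, ∑ i, l i * e i = 0 ∧ ∑ i, b i * e i ≠ 0
    · obtain ⟨e, he1, he2⟩ := hcase
      have h3 := h1 Γ hG f i0 e hdeg (by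
        rw [hq, map_pow]
        have : eval e (∑ i, C (l i) * X i) = 0 := by
          rw [← he1]
          simp
        rw [this]
        norm_num)
      refine Cv.mono h3 fun p _ _ => ?_
      have h4 : ∑ i, e i * eval p (pderiv i (f i0)) = ∑ i, b i * e i := by
        simp only [hgr]
        have h5 : ∀ M : ℂ, ∑ i, e i * (b i + 2 * M * l i) =
            ∑ i, b i * e i + 2 * M * ∑ i, l i * e i := by
          intro M
          rw [Finset.mul_sum, ← Finset.sum_add_distrib]
          exact Finset.sum_congr rfl fun i _ => by ring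
        rw [h5, he1, mul_zero, add_zero]
      rw [h4]
      exact he2
    · push Not at hcase
      obtain ⟨i, hi⟩ : ∃ i, l i ≠ 0 := by
        by_contra h
        push Not at h
        exact hl (funext h)
      set lam : ℂ := b i / l i with hlam
      have hb : ∀ j, b j = lam * l j := by
        intro j
        have h3 := hcase (Pi.single j (l i) - Pi.single i (l j)) (by
          simp only [Pi.sub_apply, mul_sub, Finset.sum_sub_distrib, Pi.single_apply, mul_ite,
            mul_zero, Finset.sum_ite_eq', Finset.mem_univ, if_true]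
          ring)
        simp only [Pi.sub_apply, mul_sub, Finset.sum_sub_distrib, Pi.single_apply, mul_ite,
            mul_zero, Finset.sum_ite_eq', Finset.mem_univ, if_true] at h3
        rw [hlam]
        field_simp
        linear_combination h3
      -- the roots of `t ^ 2 + lam t + c`
      obtain ⟨z, hz⟩ : ∃ z : ℂ, z ^ 2 = lam ^ 2 - 4 * c :=
        IsAlgClosed.exists_pow_nat_eq _ (by norm_num)
      set α : ℂ := (-lam + z) / 2 with hα
      set β : ℂ := (-lam - z) / 2 with hβ
      have hsum : α + β = -lam := by rw [hα, hβ]; ring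
      have hprod : α * β = c := by
        rw [hα, hβ]
        linear_combination (-1 / 4) * hz
      have hbs : ∀ x : Fin 3 → ℂ, ∑ i, b i * x i = lam * ∑ i, l i * x i := by
        intro x
        rw [Finset.mul_sum]
        exact Finset.sum_congr rfl fun j _ => by rw [hb j]; ring
      have hfac : f i0 = (lf l - C α) * (lf l - C β) := by
        apply MvPolynomial.funext
        intro x
        rw [hev, hbs, map_mul, map_sub, map_sub, eval_C, eval_C, eval_lf]
        linear_combination (∑ i, l i * x i) * hsum - hprod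
      have hfac' : f i0 = (lf l - C β) * (lf l - C α) := by rw [hfac, mul_comm]
      refine Cv.mono (Cv.union (plane_cv hG h1 f i0 l hl α β hfac)
        (plane_cv hG h1 f i0 l hl β α hfac')) fun p h0 hp => ?_
      by_contra hc
      push Not at hc
      obtain ⟨hc1, hc2⟩ := hc
      rw [map_sub, eval_C, eval_lf] at hc1 hc2
      obtain ⟨k, hk⟩ := hp
      apply hk
      rw [hgr, hb k]
      linear_combination l k * (hc1 + hc2) - l k * hsum

end Pool.Agent.Q252.QM
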